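import Pool.Agent.Helper68.QC.St6

open MeasureTheory Set Filter Topology Complex
open scoped ContDiff ComplexConjugate ENNReal

namespace Pool.Agent.Helper11.QCM

open Pool.Agent.Helper68.QC

private theorem mob_sub {A : SL} {x y : ℂ} (hx : den A x ≠ 0) (hy : den A y ≠ 0) :
    mob A x - mob A y = (x - y) / (den A x * den A y) := by
  have hdet : A 0 0 * A 1 1 - A 0 1 * A 1 0 = 1 := by
    have := A.2
    rwa [Matrix.det_fin_two] at this
  unfold mob
  rw [div_sub_div _ _ hx hy]
  congr 1
  unfold den
  linear_combination (x - y) * hdet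

private theorem crd_mob {A : SL} {a b ξ : ℂ} (ha : den A a ≠ 0) (hb : den A b ≠ 0)
    (ma : mob A a = a) (mb : mob A b = b) (hξb : ξ ≠ b) (hξ : den A ξ ≠ 0) :
    crd a b (mob A ξ) = (den A b / den A a) * crd a b ξ := by
  have h1 := mob_sub hξ ha
  have h2 := mob_sub hξ hb
  rw [ma] at h1
  rw [mb] at h2
  have h3 : ξ - b ≠ 0 := sub_ne_zero.mpr hξb
  unfold crd
  rw [h1, h2]
  field_simp

theorem pMTR : StMTR := by
  constructor
  · rintro A a b l ⟨hab, ha, ma, hb, mb, hc⟩
    have hdet : A 0 0 * A 1 1 - A 0 1 * A 1 0 = 1 := by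
      have := A.2
      rwa [Matrix.det_fin_two] at this
    have e1 : A 0 0 * a + A 0 1 = a * (A 1 0 * a + A 1 1) := by
      unfold mob at ma
      rw [div_eq_iff ha] at ma
      exact ma
    have e2 : A 0 0 * b + A 0 1 = b * (A 1 0 * b + A 1 1) := by
      unfold mob at mb
      rw [div_eq_iff hb] at mb
      exact mb
    have hab' : a - b ≠ 0 := sub_ne_zero.mpr hab
    have hp : A 0 0 = A 1 0 * (a + b) + A 1 1 := by
      have : (a - b) * A 0 0 = (a - b) * (A 1 0 * (a + b) + A 1 1) := by
        linear_combination e1 - e2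
      exact mul_left_cancel₀ hab' this
    have hq : A 0 1 = - (A 1 0 * a * b) := by
      rw [hp] at e1
      linear_combination e1
    have htr : A 0 0 + A 1 1 = den A a + den A b := by
      unfold den; rw [hp]; ring
    have hdd : den A a * den A b = 1 := by
      unfold den
      rw [hp, hq] at hdet
      linear_combination hdet
    -- a good point
    obtain ⟨ξ, hξ⟩ : ∃ ξ : ℂ, ξ ∉ ({a, b, -(A 1 1) / A 1 0} : Set ℂ) := by
      have hfin : ({a, b, -(A 1 1) / A 1 0} : Set ℂ).Finite := by
        exact (Set.finite_singleton _).insert _ |>.insert _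
      exact hfin.exists_notMem
    simp only [mem_insert_iff, mem_singleton_iff, not_or] at hξ
    obtain ⟨x1, x2, x3⟩ := hξ
    have hden : den A ξ ≠ 0 := by
      unfold den
      by_cases hr : A 1 0 = 0
      · rw [hr, zero_mul, zero_add]
        intro h
        apply ha
        unfold den
        rw [hr, h]; ring
      · intro h
        apply x3
        rw [eq_div_iff hr]
        linear_combination h
    have k1 := hc ξ x2 hden
    have k2 := crd_mob ha hb ma mb x2 hden
    have k3 : crd a b ξ ≠ 0 := by
      unfold crd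
      exact div_ne_zero (sub_ne_zero.mpr x1) (sub_ne_zero.mpr x2)
    have k4 : Complex.exp l = den A b / den A a := by
      rw [k1] at k2
      exact mul_right_cancel₀ k3 k2
    have k5 : den A a = (den A b)⁻¹ := eq_inv_of_mul_eq_one_left hdd
    have k6 : Complex.exp l = den A b ^ 2 := by
      rw [k4, k5]; field_simp
    have k7 : Complex.exp (-l) = den A a ^ 2 := by
      rw [Complex.exp_neg, k6, k5, inv_pow]
    rw [htr, k6, k7]
    linear_combination 2 * hdd
  · intro A l hr hl htr
    have hdet : A 0 0 * A 1 1 - A 0 1 * A 1 0 = 1 := by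
      have := A.2
      rwa [Matrix.det_fin_two] at this
    set E := Complex.exp (l / 2) with hE
    have hE0 : E ≠ 0 := Complex.exp_ne_zero _
    have hE2 : E ^ 2 = Complex.exp l := by
      rw [hE, ← Complex.exp_nat_mul]; congr 1; push_cast; ring
    have hEn : (E⁻¹) ^ 2 = Complex.exp (-l) := by
      rw [inv_pow, hE2, Complex.exp_neg]
    have hsq : (A 0 0 + A 1 1) ^ 2 = (E + E⁻¹) ^ 2 := by
      rw [htr, ← hE2, ← hEn]
      have : E * E⁻¹ = 1 := mul_inv_cancel₀ hE0
      linear_combination (-2 : ℂ) * this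
    obtain ⟨u, v, hu, hv, huv⟩ : ∃ u v : ℂ, u * v = 1 ∧ u + v = A 0 0 + A 1 1 ∧
        v ^ 2 = Complex.exp l := by
      rcases sq_eq_sq_iff_eq_or_eq_neg.mp hsq with h | h
      · exact ⟨E⁻¹, E, inv_mul_cancel₀ hE0, by rw [h]; ring, hE2⟩
      · exact ⟨-E⁻¹, -E, by rw [neg_mul_neg]; exact inv_mul_cancel₀ hE0, by rw [h]; ring,
          by rw [neg_sq]; exact hE2⟩
    have hu0 : u ≠ 0 := left_ne_zero_of_mul_eq_one hu
    have hv0 : v ≠ 0 := right_ne_zero_of_mul_eq_one hu
    have huv' : u ≠ v := by
      intro h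
      apply hl
      rw [← huv, sq]
      rw [h] at hu
      exact hu
    set a : ℂ := (u - A 1 1) / A 1 0 with ha
    set b : ℂ := (v - A 1 1) / A 1 0 with hb
    have da : den A a = u := by
      unfold den
      rw [ha, mul_div_cancel₀ _ hr]
      ring
    have db : den A b = v := by
      unfold den
      rw [hb, mul_div_cancel₀ _ hr]
      ring
    have key : ∀ w w' : ℂ, w * w' = 1 → w + w' = A 0 0 + A 1 1 → den A ((w - A 1 1) / A 1 0) = w →
        mob A ((w - A 1 1) / A 1 0) = (w - A 1 1) / A 1 0 := by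
      intro w w' h1 h2 h3
      have hw : w ≠ 0 := left_ne_zero_of_mul_eq_one h1
      unfold mob
      rw [h3, div_eq_iff hw]
      field_simp
      linear_combination (-w) * h2 + h1 - hdet
    have ma : mob A a = a := key u v hu hv da
    have mb : mob A b = b := key v u (by rw [mul_comm]; exact hu) (by rw [add_comm]; exact hv) db
    refine ⟨a, b, ?_, by rw [da]; exact hu0, ma, by rw [db]; exact hv0, mb, ?_⟩
    · intro h
      apply huv'
      rw [← da, ← db, h]
    · intro ξ h1 h2
      rw [crd_mob (by rw [da]; exact hu0) (by rw [db]; exact hv0) ma mb h1 h2, da, db, ← huv]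
      congr 1
      have : u = v⁻¹ := eq_inv_of_mul_eq_one_left hu
      rw [this]
      field_simp

end Pool.Agent.Helper11.QCM
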