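import Pool.Agent.Helper68.QC.St5

open MeasureTheory Set Filter Topology Complex
open scoped ContDiff ComplexConjugate ENNReal

namespace Pool.Agent.Helper11.QCM

open Pool.Agent.Helper68.QC

private noncomputable def jj (z : ℂ) : ℂ := 1 / conj z

private theorem jj_eq (z : ℂ) : jj z = conj (z⁻¹) := by
  unfold jj
  rw [map_inv₀, one_div]

private theorem jj_jj (z : ℂ) : jj (jj z) = z := by
  simp [jj_eq]

private theorem jj_norm (z : ℂ) : ‖jj z‖ = ‖z‖⁻¹ := by
  rw [jj_eq, RCLike.norm_conj, norm_inv]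

private theorem jj_ne {z : ℂ} (hz : z ≠ 0) : jj z ≠ 0 := by
  rw [jj_eq]
  simpa using hz

private theorem jj_sph {z : ℂ} (hz : ‖z‖ = 1) : jj z = z := by
  have h0 : z ≠ 0 := by rintro rfl; simp at hz
  have h1 : z * conj z = 1 := by rw [Complex.mul_conj', hz]; simp
  unfold jj
  rw [div_eq_iff (by simpa using h0), h1]

private theorem jj_out {z : ℂ} (hz : 1 < ‖z‖) : jj z ∈ Metric.ball (0 : ℂ) 1 := by
  rw [mem_ball_zero_iff, jj_norm]
  exact inv_lt_one_of_one_lt₀ hz

private theorem jj_in {z : ℂ} (hz : ‖z‖ < 1) (h0 : z ≠ 0) : 1 < ‖jj z‖ := by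
  rw [jj_norm]
  exact (one_lt_inv₀ (norm_pos_iff.mpr h0)).mpr hz

private theorem jj_cda {z : ℂ} (h0 : z ≠ 0) : ContDiffAt ℝ 1 jj z := by
  have h1 : ContDiffAt ℝ 1 (fun z : ℂ => z⁻¹) z := contDiffAt_id.inv h0
  have h2 : ContDiffAt ℝ 1 (fun z : ℂ => conj (z⁻¹)) z :=
    (Complex.conjCLE : ℂ →L[ℝ] ℂ).contDiff.contDiffAt.comp z h1
  refine h2.congr_of_eventuallyEq (Eventually.of_forall fun z => jj_eq z)

private theorem jj_d {z : ℂ} (h0 : z ≠ 0) : dz jj z = 0 ∧ dzb jj z ≠ 0 := by
  have h1 : DifferentiableAt ℂ (fun z : ℂ => z⁻¹) z := differentiableAt_inv h0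
  have h2 : DifferentiableAt ℝ (fun z : ℂ => z⁻¹) z := h1.restrictScalars ℝ
  have hj : jj = fun x => conj ((fun z : ℂ => z⁻¹) x) := by funext x; exact jj_eq x
  constructor
  · rw [hj, dz_conj h2, dzb_holo h1, map_zero]
  · rw [hj, dzb_conj h2, dz_holo h1, deriv_inv]
    simpa using h0

theorem pRFL : StRFL := by
  intro k E hEc hEb hEs hE0 hE1 hEd
  classical
  -- norms
  have nb : ∀ z : ℂ, ‖z‖ < 1 → ‖E z‖ < 1 := fun z hz => by
    have := hEb.mapsTo (show z ∈ Metric.ball (0 : ℂ) 1 by simpa using hz)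
    simpa using this
  have ns : ∀ z : ℂ, ‖z‖ = 1 → ‖E z‖ = 1 := fun z hz => by
    have := hEs.mapsTo (show z ∈ Metric.sphere (0 : ℂ) 1 by simpa using hz)
    simpa using this
  have ne0 : ∀ z : ℂ, ‖z‖ ≤ 1 → z ≠ 0 → E z ≠ 0 := by
    intro z hz h0 h
    rcases hz.lt_or_eq with h1 | h1
    · exact h0 (hEb.injOn (show z ∈ Metric.ball (0 : ℂ) 1 by simpa using h1)
        (show (0 : ℂ) ∈ Metric.ball (0 : ℂ) 1 by simp) (h.trans hE0.symm))
    · have := ns z h1
      rw [h] at this
      simp at this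
  set V : ℂ → ℂ := fun z => if ‖z‖ ≤ 1 then E z else jj (E (jj z)) with hV
  have Vin : ∀ z : ℂ, ‖z‖ ≤ 1 → V z = E z := fun z hz => if_pos hz
  have Vout : ∀ z : ℂ, 1 < ‖z‖ → V z = jj (E (jj z)) := fun z hz => if_neg (not_le.mpr hz)
  have jz0 : ∀ z : ℂ, 1 < ‖z‖ → z ≠ 0 := by
    rintro z hz rfl
    rw [norm_zero] at hz
    linarith
  have Vn : ∀ z : ℂ, (‖z‖ < 1 → ‖V z‖ < 1) ∧ (‖z‖ = 1 → ‖V z‖ = 1) ∧ (1 < ‖z‖ → 1 < ‖V z‖) := by
    intro z
    refine ⟨fun h => ?_, fun h => ?_, fun h => ?_⟩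
    · rw [Vin z h.le]; exact nb z h
    · rw [Vin z h.le]; exact ns z h
    · rw [Vout z h]
      have h1 : ‖jj z‖ < 1 := by simpa using jj_out h
      exact jj_in (nb _ h1) (ne0 _ h1.le (jj_ne (jz0 z h)))
  have Vcont : Continuous V := by
    refine continuous_if_le continuous_norm continuous_const (f' := E)
      (g' := fun z => jj (E (jj z))) ?_ ?_ ?_
    · refine hEc.mono fun z hz => ?_
      simpa using hz
    · intro z hz
      have hz1 : 1 ≤ ‖z‖ := hz
      have h0 : z ≠ 0 := by
        rintro rfl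
        rw [norm_zero] at hz1
        linarith
      have h1 : ‖jj z‖ ≤ 1 := by
        rw [jj_norm]; exact inv_le_one_of_one_le₀ hz1
      have h2 : ContinuousWithinAt jj {x : ℂ | 1 ≤ ‖x‖} z := (jj_cda h0).continuousAt.continuousWithinAt
      have h3 : ContinuousWithinAt (fun z => E (jj z)) {x : ℂ | 1 ≤ ‖x‖} z := by
        refine ContinuousWithinAt.comp (t := Metric.closedBall (0 : ℂ) 1)
          (hEc (jj z) (by simpa using h1)) h2 ?_
        intro x hx
        have : ‖jj x‖ ≤ 1 := by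
          rw [jj_norm]; exact inv_le_one_of_one_le₀ hx
        simpa using this
      have h4 : ContinuousAt jj (E (jj z)) := (jj_cda (ne0 _ h1 (jj_ne h0))).continuousAt
      exact ContinuousAt.comp_continuousWithinAt (f := fun z => E (jj z)) h4 h3
    · intro z hz
      rw [jj_sph hz, jj_sph (ns z hz)]
  have Vinj : Function.Injective V := by
    intro z w h
    rcases lt_trichotomy ‖z‖ 1 with hz | hz | hz <;> rcases lt_trichotomy ‖w‖ 1 with hw | hw | hw
    · rw [Vin z hz.le, Vin w hw.le] at h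
      exact hEb.injOn (by simpa using hz) (by simpa using hw) h
    · exfalso
      have h1 := (Vn z).1 hz
      have h2 := (Vn w).2.1 hw
      rw [h] at h1; linarith
    · exfalso
      have h1 := (Vn z).1 hz
      have h2 := (Vn w).2.2 hw
      rw [h] at h1; linarith
    · exfalso
      have h1 := (Vn z).2.1 hz
      have h2 := (Vn w).1 hw
      rw [h] at h1; linarith
    · rw [Vin z hz.le, Vin w hw.le] at h
      exact hEs.injOn (by simpa using hz) (by simpa using hw) h
    · exfalso
      have h1 := (Vn z).2.1 hz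
      have h2 := (Vn w).2.2 hw
      rw [h] at h1; linarith
    · exfalso
      have h1 := (Vn z).2.2 hz
      have h2 := (Vn w).1 hw
      rw [h] at h1; linarith
    · exfalso
      have h1 := (Vn z).2.2 hz
      have h2 := (Vn w).2.1 hw
      rw [h] at h1; linarith
    · rw [Vout z hz, Vout w hw] at h
      have h1 : E (jj z) = E (jj w) := by
        have := congrArg jj h
        rwa [jj_jj, jj_jj] at this
      have h2 := hEb.injOn (jj_out hz) (jj_out hw) h1
      have := congrArg jj h2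
      rwa [jj_jj, jj_jj] at this
  have Vsurj : Function.Surjective V := by
    intro w
    rcases lt_trichotomy ‖w‖ 1 with hw | hw | hw
    · obtain ⟨z, hz, hzw⟩ := hEb.surjOn (show w ∈ Metric.ball (0 : ℂ) 1 by simpa using hw)
      have hz1 : ‖z‖ < 1 := by simpa using hz
      exact ⟨z, by rw [Vin z hz1.le, hzw]⟩
    · obtain ⟨z, hz, hzw⟩ := hEs.surjOn (show w ∈ Metric.sphere (0 : ℂ) 1 by simpa using hw)
      have hz1 : ‖z‖ = 1 := by simpa using hz
      exact ⟨z, by rw [Vin z hz1.le, hzw]⟩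
    · obtain ⟨u, hu, huw⟩ := hEb.surjOn (jj_out hw)
      have hu1 : ‖u‖ < 1 := by simpa using hu
      have hu0 : u ≠ 0 := by
        rintro rfl
        rw [hE0] at huw
        exact jj_ne (jz0 w hw) huw.symm
      refine ⟨jj u, ?_⟩
      rw [Vout _ (jj_in hu1 hu0), jj_jj, huw, jj_jj]
  have Vprop : Tendsto V (cocompact ℂ) (cocompact ℂ) := by
    rw [← Metric.cobounded_eq_cocompact]
    have hev : ∀ᶠ z : ℂ in Bornology.cobounded ℂ, 1 < ‖z‖ := by
      have h1 : Tendsto (fun z : ℂ => ‖z‖) (Bornology.cobounded ℂ) atTop :=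
        tendsto_norm_cobounded_atTop
      exact h1.eventually (eventually_gt_atTop 1)
    have h1 : Tendsto (fun z : ℂ => conj (E (jj z))) (Bornology.cobounded ℂ) (𝓝[≠] 0) := by
      rw [tendsto_nhdsWithin_iff]
      constructor
      · have hE : ContinuousAt E 0 :=
          hEc.continuousAt (Metric.closedBall_mem_nhds (0 : ℂ) one_pos)
        have hj : Tendsto jj (Bornology.cobounded ℂ) (𝓝 0) := by
          have h2 : Tendsto (fun z : ℂ => conj (z⁻¹)) (Bornology.cobounded ℂ) (𝓝 (conj 0)) :=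
            (Complex.continuous_conj.tendsto _).comp tendsto_inv₀_cobounded
          rw [map_zero] at h2
          refine h2.congr fun z => (jj_eq z).symm
        have h3 : Tendsto (fun z => E (jj z)) (Bornology.cobounded ℂ) (𝓝 (E 0)) :=
          hE.tendsto.comp hj
        rw [hE0] at h3
        have h4 := (Complex.continuous_conj.tendsto 0).comp h3
        rw [map_zero] at h4
        exact h4
      · filter_upwards [hev] with z hz
        have h2 : ‖jj z‖ < 1 := by simpa using jj_out hz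
        have h3 := ne0 _ h2.le (jj_ne (jz0 z hz))
        show conj (E (jj z)) ≠ 0
        simpa using h3
    have h2 := (tendsto_inv₀_nhdsNE_zero (α := ℂ)).comp h1
    refine h2.congr' ?_
    filter_upwards [hev] with z hz
    rw [Vout z hz]
    simp [jj]
  have Vhomeo : IsHomeomorph V := by
    rw [isHomeomorph_iff_continuous_isClosedMap_bijective]
    exact ⟨Vcont, (isProperMap_iff_tendsto_cocompact.mpr ⟨Vcont, Vprop⟩).isClosedMap,
      Vinj, Vsurj⟩
  have hopo : IsOpen {z : ℂ | 1 < ‖z‖} := isOpen_lt continuous_const continuous_norm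
  have hopi : IsOpen (Metric.ball (0 : ℂ) 1) := Metric.isOpen_ball
  have evin : ∀ z : ℂ, ‖z‖ < 1 → V =ᶠ[𝓝 z] E := by
    intro z hz
    filter_upwards [hopi.mem_nhds (show z ∈ Metric.ball (0 : ℂ) 1 by simpa using hz)] with x hx
    exact Vin x (by simpa using (Metric.ball_subset_closedBall hx))
  have evout : ∀ z : ℂ, 1 < ‖z‖ → V =ᶠ[𝓝 z] fun x => jj (E (jj x)) := by
    intro z hz
    filter_upwards [hopo.mem_nhds hz] with x hx
    exact Vout x hx
  have Ecda : ∀ z ∈ Metric.ball (0 : ℂ) 1, ContDiffAt ℝ 1 E z := fun z hz =>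
    hE1.contDiffAt (hopi.mem_nhds hz)
  refine ⟨V, fun z hz => Vin z (by simpa using hz), fun z hz => Vout z hz, Vhomeo, ?_, ?_, ?_⟩
  · intro z hz
    refine ContDiffAt.contDiffWithinAt ?_
    rcases lt_or_gt_of_ne (show ‖z‖ ≠ 1 from hz) with h | h
    · exact (Ecda z (by simpa using h)).congr_of_eventuallyEq (evin z h)
    · refine ContDiffAt.congr_of_eventuallyEq ?_ (evout z h)
      have h1 := jj_cda (jz0 z h)
      have h2 := Ecda _ (jj_out h)
      have h3 : ‖jj z‖ < 1 := by simpa using jj_out h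
      have h4 := jj_cda (ne0 _ h3.le (jj_ne (jz0 z h)))
      have h5 : ContDiffAt ℝ 1 (fun x => E (jj x)) z := h2.comp z h1
      exact ContDiffAt.comp (f := fun x => E (jj x)) z h4 h5
  · intro z hz
    rcases lt_or_gt_of_ne (show ‖z‖ ≠ 1 from hz) with h | h
    · exact ((Vn z).1 h).ne
    · exact ((Vn z).2.2 h).ne'
  · intro z hz
    rcases lt_or_gt_of_ne (show ‖z‖ ≠ 1 from hz) with h | h
    · have h1 := (evin z h).fderiv_eq (𝕜 := ℝ)
      have h2 : dz V z = dz E z := by unfold dz; rw [h1]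
      have h3 : dzb V z = dzb E z := by unfold dzb; rw [h1]
      rw [h2, h3]
      exact hEd z (by simpa using h)
    · have h1 := (evout z h).fderiv_eq (𝕜 := ℝ)
      have h2 : dz V z = dz (fun x => jj (E (jj x))) z := by unfold dz; rw [h1]
      have h3 : dzb V z = dzb (fun x => jj (E (jj x))) z := by unfold dzb; rw [h1]
      have h0 := jz0 z h
      have hj1 : DifferentiableAt ℝ jj z := (jj_cda h0).differentiableAt (by norm_num)
      have hE2 : DifferentiableAt ℝ E (jj z) := (Ecda _ (jj_out h)).differentiableAt (by norm_num)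
      have h4 : ‖jj z‖ < 1 := by simpa using jj_out h
      have h5 := ne0 _ h4.le (jj_ne h0)
      have hj2 : DifferentiableAt ℝ jj (E (jj z)) := (jj_cda h5).differentiableAt (by norm_num)
      have hF : DifferentiableAt ℝ (fun x => E (jj x)) z := hE2.comp z hj1
      obtain ⟨d1, d2⟩ := jj_d h0
      obtain ⟨d3, d4⟩ := jj_d h5
      have e1 : dz (fun x => E (jj x)) z = dzb E (jj z) * conj (dzb jj z) := by
        rw [dz_comp hE2 hj1, d1]; ring
      have e2 : dzb (fun x => E (jj x)) z = dz E (jj z) * dzb jj z := by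
        rw [dzb_comp hE2 hj1, d1]; simp
      have e3 : dz (fun x => jj (E (jj x))) z =
          dzb jj (E (jj z)) * conj (dz E (jj z) * dzb jj z) := by
        rw [dz_comp (f := fun x => E (jj x)) hj2 hF, d3, e2]; ring
      have e4 : dzb (fun x => jj (E (jj x))) z =
          dzb jj (E (jj z)) * conj (dzb E (jj z) * conj (dzb jj z)) := by
        rw [dzb_comp (f := fun x => E (jj x)) hj2 hF, d3, e1]; ring
      obtain ⟨g1, g2⟩ := hEd (jj z) (jj_out h)
      rw [h2, h3, e3, e4]
      constructor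
      · refine mul_ne_zero d4 ?_
        simpa using ⟨g1, d2⟩
      · simp only [norm_mul, RCLike.norm_conj]
        have : 0 ≤ ‖dzb jj (E (jj z))‖ * ‖dzb jj z‖ := by positivity
        nlinarith [mul_le_mul_of_nonneg_left g2 this]

end Pool.Agent.Helper11.QCM
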